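import Pool.Agent.H33.HC.TC
import Pool.Agent.H22.CRG.LE1
import Pool.Agent.H37.HH.QUO

/-!
# Board hcz_modules, row LEC: the mean square of the Cauchy integral on the left line
-/

set_option autoImplicit false

open NumberField Complex Filter Topology MeasureTheory
open scoped ContDiff nonZeroDivisors

namespace Pool.Agent.H86.HC

open Pool.Agent.H33.HC Pool.Agent.H33.HH Pool.Agent.H28.RC Pool.Agent.H37.CV
open Pool.Agent.H65.CRZ (Zx Bm b0)
open Pool.Agent.H65.CRG (kn cQ pm qm gQ)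
open Pool.Agent.H22.CRG (zc' zc'_eq conj_kn ker_kn cont_ker norm_ker_le norm_zc' dbl_approx)

noncomputable section

variable {K : Type} [Field K] [NumberField K]

/-! ### Finite sums -/

theorem nm_ge {I : Ideal (𝓞 K)} (h : I ≠ ⊥) : 1 ≤ nm I := by
  unfold nm
  have : Ideal.absNorm I ≠ 0 := fun h0 => h (Ideal.absNorm_eq_zero_iff.1 h0)
  exact_mod_cast Nat.one_le_iff_ne_zero.2 this

theorem nmm (I J : Ideal (𝓞 K)) : nm (I * J) = nm I * nm J := by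
  unfold nm
  rw [map_mul]
  push_cast
  rfl

theorem np_ge (p : PrI K) : 1 ≤ np p := nm_ge p.2.2

theorem nS_pos (S : Finset (PrI K)) : 0 < nS np S :=
  Finset.prod_pos fun p _ => by linarith [np_ge p]

theorem fin_le (b : ℝ) : {I : Ideal (𝓞 K) | nm I ≤ b}.Finite := by
  have h1 := Ideal.finite_setOfPred_absNorm_le (S := 𝓞 K) ⌊b⌋₊
  refine h1.subset ?_
  intro I hI
  exact Nat.le_floor hI

theorem fin_NI (b : ℝ) : {I : NI K | nm I.1 < b}.Finite := by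
  refine Set.Finite.of_finite_image (f := fun I : NI K => I.1) ((fin_le b).subset ?_)
    Subtype.val_injective.injOn
  rintro _ ⟨I, hI, rfl⟩
  have h1 : nm I.1 < b := hI
  exact h1.le

open scoped Classical in
theorem sumC_eq (P b : ℝ) (f : Ideal (𝓞 K) → ℝ) (h : ∀ I, b ≤ nm I → f I = 0) :
    sumC P f = ∑ I ∈ (fin_NI (K := K) b).toFinset, if Cp P I.1 then f I.1 else 0 := by
  unfold sumC
  refine tsum_eq_sum fun I hI => ?_
  rw [Set.Finite.mem_toFinset] at hI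
  have h1 : b ≤ nm I.1 := not_lt.1 hI
  rw [h _ h1]
  simp

open scoped Classical in
theorem sumZ_eq (P b : ℝ) (f : Ideal (𝓞 K) → ℂ) (h : ∀ I, b ≤ nm I → f I = 0) :
    sumZ P f = ∑ I ∈ (fin_NI (K := K) b).toFinset, if Cp P I.1 then f I.1 else 0 := by
  unfold sumZ
  refine tsum_eq_sum fun I hI => ?_
  rw [Set.Finite.mem_toFinset] at hI
  have h1 : b ≤ nm I.1 := not_lt.1 hI
  rw [h _ h1]
  simp

/-- the support of the coefficients -/
def FS (K : Type) [Field K] [NumberField K] (b : ℝ) : Finset (Ideal (𝓞 K)) :=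
  (fin_le (K := K) b).toFinset

theorem QQ2_eq (f : Ideal (𝓞 K)) (b : ℝ) (c c' : Ideal (𝓞 K) → ℂ) (hc : ∀ n, c n ≠ 0 → nm n ≤ b)
    (hc' : ∀ n, c' n ≠ 0 → nm n ≤ b) :
    QQ2 f c c' = ∑ p ∈ (FS K b) ×ˢ (FS K b), (kap f p.1 p.2 : ℂ) * c p.1 * c' p.2 := by
  unfold QQ2
  refine finsum_eq_sum_of_support_subset _ ?_
  intro p hp
  rw [Function.mem_support] at hp
  have h1 : c p.1 ≠ 0 := fun h => hp (by rw [h]; ring)
  have h2 : c' p.2 ≠ 0 := fun h => hp (by rw [h]; ring)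
  rw [Finset.coe_product, Set.mem_prod]
  unfold FS
  rw [Set.Finite.coe_toFinset]
  exact ⟨hc _ h1, hc' _ h2⟩

theorem fs_sum (b : ℝ) (c ψ : Ideal (𝓞 K) → ℂ) (hc : ∀ n, c n ≠ 0 → nm n ≤ b) :
    ∑ᶠ n : Ideal (𝓞 K), c n * ψ n = ∑ n ∈ FS K b, c n * ψ n := by
  refine finsum_eq_sum_of_support_subset _ ?_
  intro n hn
  rw [Function.mem_support] at hn
  have h1 : c n ≠ 0 := fun h => hn (by rw [h]; ring)
  unfold FS
  rw [Set.Finite.coe_toFinset]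
  exact hc _ h1

/-! ### Bilinear forms of integrals -/

/-- the mean over the circle -/
def mi (f : ℝ → ℂ) : ℂ := 1 / (2 * Real.pi : ℂ) * ∫ φ in (0 : ℝ)..(2 * Real.pi), f φ

theorem conj_mi (f : ℝ → ℂ) : (starRingEnd ℂ) (mi f) =
    mi fun φ => (starRingEnd ℂ) (f φ) := by
  unfold mi
  rw [map_mul, intervalIntegral.integral_of_le Real.two_pi_pos.le,
    intervalIntegral.integral_of_le Real.two_pi_pos.le, integral_conj]
  have h1 : (starRingEnd ℂ) (1 / (2 * Real.pi : ℂ)) = 1 / (2 * Real.pi : ℂ) := by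
    have h2 : (1 / (2 * Real.pi : ℂ)) = ((1 / (2 * Real.pi) : ℝ) : ℂ) := by push_cast; rfl
    rw [h2, Complex.conj_ofReal]
  rw [h1]

theorem mi_sum {ι : Type*} (T : Finset ι) (f : ι → ℝ → ℂ) (hf : ∀ i, Continuous (f i)) :
    mi (fun φ => ∑ i ∈ T, f i φ) = ∑ i ∈ T, mi (f i) := by
  unfold mi
  rw [intervalIntegral.integral_finsetSum fun i _ => (hf i).intervalIntegrable _ _,
    Finset.mul_sum]

theorem mi_mul_const (f : ℝ → ℂ) (c : ℂ) : mi (fun φ => f φ * c) = mi f * c := by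
  unfold mi
  rw [intervalIntegral.integral_mul_const]
  ring

theorem mi_const_mul (f : ℝ → ℂ) (c : ℂ) : mi (fun φ => c * f φ) = c * mi f := by
  unfold mi
  rw [intervalIntegral.integral_const_mul]
  ring

theorem mi_sub (f g : ℝ → ℂ) (hf : Continuous f) (hg : Continuous g) :
    mi (fun φ => f φ - g φ) = mi f - mi g := by
  unfold mi
  rw [intervalIntegral.integral_sub (hf.intervalIntegrable _ _) (hg.intervalIntegrable _ _)]
  ring

theorem norm_mi_le (f : ℝ → ℂ) {b : ℝ} (hb : ∀ φ, ‖f φ‖ ≤ b) : ‖mi f‖ ≤ b := by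
  have hpi := Real.two_pi_pos
  have h2 := intervalIntegral.norm_integral_le_of_norm_le_const (a := 0) (b := 2 * Real.pi)
    (f := f) (C := b) fun φ _ => hb φ
  rw [sub_zero, abs_of_pos hpi] at h2
  unfold mi
  rw [norm_mul, norm_div, norm_one, norm_mul, Complex.norm_real, Complex.norm_ofNat,
    Real.norm_eq_abs, abs_of_pos Real.pi_pos]
  calc 1 / (2 * Real.pi) * _ ≤ 1 / (2 * Real.pi) * (b * (2 * Real.pi)) :=
        mul_le_mul_of_nonneg_left h2 (by positivity)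
    _ = b := by field_simp

theorem bil {τ ι : Type*} (T : Finset τ) (w : τ → ℂ) (u v : τ → ι) (f : ι → ℝ → ℂ)
    (hf : ∀ i, Continuous (f i)) :
    ∑ x ∈ T, w x * mi (f (u x)) * (starRingEnd ℂ) (mi (f (v x))) =
      1 / (2 * Real.pi : ℂ) ^ 2 * ∫ φ in (0 : ℝ)..(2 * Real.pi), ∫ ψ in (0 : ℝ)..(2 * Real.pi),
        ∑ x ∈ T, w x * f (u x) φ * (starRingEnd ℂ) (f (v x) ψ) := by
  have hin : ∀ φ : ℝ, mi (fun ψ => ∑ x ∈ T, w x * f (u x) φ * (starRingEnd ℂ) (f (v x) ψ)) =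
      ∑ x ∈ T, w x * f (u x) φ * (starRingEnd ℂ) (mi (f (v x))) := by
    intro φ
    rw [mi_sum T (fun x ψ => w x * f (u x) φ * (starRingEnd ℂ) (f (v x) ψ)) fun x =>
      continuous_const.mul (Complex.continuous_conj.comp (hf _))]
    refine Finset.sum_congr rfl fun x _ => ?_
    rw [mi_const_mul, conj_mi]
  have hout : mi (fun φ => ∑ x ∈ T, w x * f (u x) φ * (starRingEnd ℂ) (mi (f (v x)))) =
      ∑ x ∈ T, w x * mi (f (u x)) * (starRingEnd ℂ) (mi (f (v x))) := by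
    rw [mi_sum T (fun x φ => w x * f (u x) φ * (starRingEnd ℂ) (mi (f (v x)))) fun x =>
      (continuous_const.mul (hf _)).mul continuous_const]
    refine Finset.sum_congr rfl fun x _ => ?_
    rw [mi_mul_const, mi_const_mul]
  rw [← hout]
  simp only [← hin]
  unfold mi
  rw [intervalIntegral.integral_const_mul]
  ring

theorem cont_bil {τ ι : Type*} (T : Finset τ) (w : τ → ℂ) (u v : τ → ι) (f : ι → ℝ → ℂ)
    (hf : ∀ i, Continuous (f i)) : Continuous (Function.uncurry fun φ ψ : ℝ =>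
      ∑ x ∈ T, w x * f (u x) φ * (starRingEnd ℂ) (f (v x) ψ)) := by
  refine continuous_finsetSum _ fun x _ => ?_
  exact (continuous_const.mul ((hf _).comp continuous_fst)).mul
    (Complex.continuous_conj.comp ((hf _).comp continuous_snd))

/-! ### Continuity -/

theorem two_ne {s : ℂ} (h : s.re < 1) : (1 : ℂ) - (2 : ℂ) ^ (s - 1) ≠ 0 := by
  intro h0
  have h1 : (2 : ℂ) ^ (s - 1) = 1 := (sub_eq_zero.1 h0).symm
  have h2 := congrArg norm h1
  rw [show (2 : ℂ) = ((2 : ℝ) : ℂ) by norm_num, Complex.norm_cpow_eq_rpow_re_of_pos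
    (by norm_num), norm_one] at h2
  have h3 : (2 : ℝ) ^ (s - 1).re < 1 := by
    refine Real.rpow_lt_one_of_one_lt_of_neg (by norm_num) ?_
    rw [Complex.sub_re, Complex.one_re]
    linarith
  linarith

theorem cont_Gs (G : ℝ → ℝ) (v : ℝ) {s : ℝ → ℂ} (hs : Continuous s) (hN : ∀ φ, (s φ).re < 1) :
    Continuous fun φ => Gs G (s φ) v := by
  unfold Gs
  have h2 : Continuous fun φ => (2 : ℂ) ^ (s φ - 1) :=
    (hs.sub continuous_const).const_cpow (Or.inl (by norm_num))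
  exact (continuous_const.sub (h2.mul continuous_const)).div (continuous_const.sub h2)
    fun φ => two_ne (hN φ)

theorem cont_gc (G : ℝ → ℝ) (Z : ℝ) {t : ℝ} (ht : t ≠ 0) {s : ℝ → ℂ} (hs : Continuous s)
    (hN : ∀ φ, (s φ).re < 1) : Continuous fun φ => gc G Z (s φ) t := by
  unfold gc
  exact (hs.neg.const_cpow (Or.inl (by exact_mod_cast ht))).mul (cont_Gs G _ hs hN)

theorem cont_cfs (P y Z : ℝ) (G : ℝ → ℝ) (z : ℂ) (n : Ideal (𝓞 K)) {s : ℝ → ℂ}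
    (hs : Continuous s) (hN : ∀ φ, (s φ).re < 1) : Continuous fun φ => cfs P y Z G (s φ) z n := by
  unfold cfs
  by_cases h : n ≠ ⊥ ∧ Cp P n
  · simp only [if_pos h]
    refine continuous_finsetSum _ fun S _ => continuous_const.mul (cont_gc G Z ?_ hs hN)
    have h1 := nm_ge h.1
    have h2 := nS_pos S
    positivity
  · simp only [if_neg h]
    exact continuous_const

theorem cont_ZP (P : ℝ) (χ : RCC K) {s : ℝ → ℂ} (hs : Continuous s) :
    Continuous fun φ => ZP P χ (s φ) := by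
  unfold ZP EP
  have h1 : Continuous (Zx χ) := by
    unfold Zx
    split_ifs with h
    · exact h.choose_spec.1.continuous
    · exact continuous_const
  refine (h1.comp hs).mul (continuous_finsetProd _ fun p _ => ?_)
  have hp : ((np p : ℝ) : ℂ) ≠ 0 := by
    have := np_ge p
    exact_mod_cast (by linarith : np p ≠ 0)
  exact continuous_const.sub (continuous_const.mul (hs.neg.const_cpow (Or.inl hp)))

/-! ### The shifts -/

/-- the first shift -/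
def al (R L φ : ℝ) : ℂ := (-R + R / 2 * cexp (φ * I)) / L

/-- the second shift -/
def be (R L ψ : ℝ) : ℂ := (-R + R / 2 * cexp (-(ψ * I))) / L

theorem conj_al (R L ψ : ℝ) : (starRingEnd ℂ) (al R L ψ) = be R L ψ := by
  unfold al be
  have b8 : (starRingEnd ℂ) ((R : ℂ) / 2) = (R : ℂ) / 2 := by
    have b9 : ((R : ℂ) / 2) = ((R / 2 : ℝ) : ℂ) := by push_cast; rfl
    rw [b9, Complex.conj_ofReal]
  rw [map_div₀, map_add, map_neg, Complex.conj_ofReal, Complex.conj_ofReal, map_mul,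
    ← Complex.exp_conj, map_mul, Complex.conj_ofReal, Complex.conj_I, b8, mul_neg]

theorem conj_se (α : ℂ) (u : ℝ) : (starRingEnd ℂ) (se α u) = se ((starRingEnd ℂ) α) (-u) := by
  unfold se
  have b9 : (starRingEnd ℂ) (1 / 2 : ℂ) = 1 / 2 := by
    have b8 : (1 / 2 : ℂ) = ((1 / 2 : ℝ) : ℂ) := by push_cast; rfl
    rw [b8, Complex.conj_ofReal]
  rw [map_add, map_add, map_mul, Complex.conj_ofReal, Complex.conj_I, b9]
  push_cast
  ring

theorem se_sgm (R Q t φ : ℝ) : (sgm R Q : ℂ) + t * I + R / 2 * cexp (φ * I) / (Real.log Q : ℝ) =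
    se (al R (Real.log Q) φ) t := by
  unfold sgm se al
  push_cast
  ring

theorem na {R : ℝ} (hR : 0 < R) (φ : ℝ) : ‖(R : ℂ) / 2 * cexp (φ * I)‖ = R / 2 := by
  rw [← zc'_eq]
  exact norm_zc' (by positivity) φ

theorem nb {R : ℝ} (hR : 0 < R) (ψ : ℝ) : ‖(R : ℂ) / 2 * cexp (-(ψ * I))‖ = R / 2 := by
  have a1 := na hR (-ψ)
  rwa [show (((-ψ : ℝ) : ℂ) * I) = -((ψ : ℂ) * I) by push_cast; ring] at a1

theorem norm_sh {R L : ℝ} (hR : 0 < R) (hL : 0 < L) {z : ℂ} (hz : ‖z‖ = R / 2) :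
    ‖(-(R : ℂ) + z) / L‖ ≤ 2 * R / L := by
  rw [norm_div, Complex.norm_real, Real.norm_eq_abs, abs_of_pos hL]
  have b1 : ‖-(R : ℂ) + z‖ ≤ 2 * R := by
    refine (norm_add_le _ _).trans ?_
    rw [norm_neg, Complex.norm_real, Real.norm_eq_abs, abs_of_pos hR, hz]
    linarith
  exact div_le_div_of_nonneg_right b1 hL.le

theorem norm_al {R L : ℝ} (hR : 0 < R) (hL : 0 < L) (φ : ℝ) : ‖al R L φ‖ ≤ 2 * R / L :=
  norm_sh hR hL (na hR φ)

theorem norm_be {R L : ℝ} (hR : 0 < R) (hL : 0 < L) (φ : ℝ) : ‖be R L φ‖ ≤ 2 * R / L :=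
  norm_sh hR hL (nb hR φ)

theorem norm_ab {R L : ℝ} (hR : 0 < R) (hL : 0 < L) (φ ψ : ℝ) :
    R / L ≤ ‖al R L φ + be R L ψ‖ := by
  have b1 : al R L φ + be R L ψ =
      (-(2 * R : ℝ) + (R / 2 * cexp (φ * I) + R / 2 * cexp (-(ψ * I)))) / L := by
    unfold al be
    push_cast
    ring
  rw [b1, norm_div, Complex.norm_real, Real.norm_eq_abs, abs_of_pos hL]
  have b2 : R ≤ ‖(-(2 * R : ℝ) + (R / 2 * cexp (φ * I) + R / 2 * cexp (-(ψ * I))) : ℂ)‖ := by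
    have b3 := norm_add_le (R / 2 * cexp (φ * I) : ℂ) (R / 2 * cexp (-(ψ * I)))
    rw [na hR, nb hR] at b3
    have b4 := norm_sub_norm_le (-(2 * R : ℝ) : ℂ) (-(R / 2 * cexp (φ * I) + R / 2 * cexp (-(ψ * I))))
    rw [sub_neg_eq_add, norm_neg, norm_neg, Complex.norm_real, Real.norm_eq_abs,
      abs_of_pos (by positivity)] at b4
    linarith
  exact div_le_div_of_nonneg_right b2 hL.le

theorem Nr_se {α : ℂ} (h : ‖α‖ ≤ 1 / 16) (u : ℝ) : Nr (se α u) := by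
  unfold Nr se
  have h1 : (1 / 2 + α + u * I : ℂ).re - 1 / 2 = α.re := by simp
  rw [h1]
  exact (Complex.abs_re_le_norm α).trans h

theorem Nr_lt {s : ℂ} (h : Nr s) : s.re < 1 := by
  unfold Nr at h
  have := (abs_le.1 h).2
  linarith

theorem cont_se (R L t : ℝ) : Continuous fun φ : ℝ => se (al R L φ) t := by
  unfold se al
  fun_prop

theorem cont_kn (N : ℕ) (m : ℕ → ℝ) {R : ℝ} (hR : 0 < R) :
    Continuous fun φ : ℝ => kn N m (R / 2 * cexp (φ * I)) := by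
  have := cont_ker (2 * N + 1) (fun i => (qm N m i : ℂ)) (r := R / 2) (by positivity)
  simp only [ker_kn, zc'_eq] at this
  exact this

theorem norm_kn (N : ℕ) (m : ℕ → ℝ) {R : ℝ} (hR : 0 < R) : ∃ κ : ℝ, 0 ≤ κ ∧
    ∀ φ : ℝ, ‖kn N m (R / 2 * cexp (φ * I))‖ ≤ κ := by
  obtain ⟨Kq, hKq⟩ : ∃ Kq : ℝ, ∀ i < 2 * N + 1, ‖(qm N m i : ℂ)‖ ≤ Kq := by
    refine ⟨∑ i ∈ Finset.range (2 * N + 1), ‖(qm N m i : ℂ)‖, fun i hi => ?_⟩
    exact Finset.single_le_sum (f := fun i => ‖(qm N m i : ℂ)‖) (fun _ _ => norm_nonneg _)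
      (Finset.mem_range.2 hi)
  refine ⟨Kq * ∑ i ∈ Finset.range (2 * N + 1), (i.factorial : ℝ) / (R / 2) ^ i, ?_,
    fun φ => ?_⟩
  · have h1 := hKq 0 (by omega)
    exact mul_nonneg ((norm_nonneg _).trans h1) (Finset.sum_nonneg fun i _ => by positivity)
  · have := norm_ker_le (2 * N + 1) (fun i => (qm N m i : ℂ)) (r := R / 2) (by positivity) hKq φ
    rwa [ker_kn, zc'_eq] at this

/-! ### The form of the mean coefficients -/

/-- the coefficients on the circle -/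
def fc (P y Z : ℝ) (G : ℝ → ℝ) (N : ℕ) (m : ℕ → ℝ) (R L t : ℝ) (n : Ideal (𝓞 K)) (φ : ℝ) : ℂ :=
  kn N m (R / 2 * cexp (φ * I)) * cfs P y Z G (se (al R L φ) t) (se 0 t) n

theorem cont_fc (P y Z : ℝ) (G : ℝ → ℝ) (N : ℕ) (m : ℕ → ℝ) {R L : ℝ} (t : ℝ) (hR : 0 < R)
    (hN : ∀ φ, Nr (se (al R L φ) t)) (n : Ideal (𝓞 K)) :
    Continuous (fc P y Z G N m R L t n) :=
  (cont_kn N m hR).mul (cont_cfs P y Z G _ n (cont_se R L t) fun φ => Nr_lt (hN φ))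

theorem mi_fc [IQ K] (h3 : T_BQS) {P y Z : ℝ} {G : ℝ → ℝ} (hG : IsG G) (hy : 1 ≤ y) (hZ : 0 < Z)
    (N : ℕ) (m : ℕ → ℝ) {R L : ℝ} (t : ℝ) (hN : ∀ φ, Nr (se (al R L φ) t)) (n : Ideal (𝓞 K))
    (hn : mi (fc P y Z G N m R L t n) ≠ 0) : n ≠ ⊥ ∧ Cp P n ∧ nm n ≤ 6 * y * Z := by
  by_contra hc
  apply hn
  have h1 : fc P y Z G N m R L t n = fun _ => 0 := by
    funext φ
    have h2 : cfs P y Z G (se (al R L φ) t) (se 0 t) n = 0 := by
      by_contra h0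
      exact hc ((h3 K P y Z G _ _ hG hy hZ (hN φ)).2.1 n h0)
    rw [fc, h2, mul_zero]
  rw [h1]
  unfold mi
  simp

open scoped Classical in
/-- the form of the mean coefficients as a double mean of the second moments -/
theorem form [IQ K] (h3 : T_BQS) (h4 : T_CNJ) {P y Z Q : ℝ} {W G : ℝ → ℝ} (hQ : 0 < Q) (hW : IsW W)
    (hG : IsG G) (hy : 1 ≤ y) (hZ : 0 < Z) (N : ℕ) (m : ℕ → ℝ) {R L : ℝ} (t : ℝ) (hR : 0 < R)
    (hN : ∀ φ, Nr (se (al R L φ) t)) (hN' : ∀ ψ, Nr (se (be R L ψ) (-t))) (k : Ideal (𝓞 K)) :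
    ∃ F : ℝ → ℝ → ℂ, Continuous (Function.uncurry F) ∧
      (∀ φ ψ, F φ ψ = SMs P y Z Q W G k (al R L φ) (be R L ψ) t *
        (kn N m (R / 2 * cexp (φ * I)) * kn N m (R / 2 * cexp (-(ψ * I))))) ∧
      (sumZ P fun q => ((W (nm q / Q) * nm q : ℝ) : ℂ) *
        QQ2 (k * q) (fun n => mi (fc P y Z G N m R L t n))
          (fun n => (starRingEnd ℂ) (mi (fc P y Z G N m R L t n)))) =
      1 / (2 * Real.pi : ℂ) ^ 2 * ∫ φ in (0 : ℝ)..(2 * Real.pi), ∫ ψ in (0 : ℝ)..(2 * Real.pi),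
        F φ ψ := by
  have hWz : ∀ I : Ideal (𝓞 K), Q ≤ nm I → W (nm I / Q) = 0 := by
    intro I hI
    refine hW.high _ ?_
    rw [le_div_iff₀ hQ, one_mul]
    exact hI
  have hfc := cont_fc (K := K) P y Z G N m t hR hN
  have hmi := fun n => mi_fc (K := K) h3 (P := P) hG hy hZ N m t hN n
  let w : NI K × Ideal (𝓞 K) × Ideal (𝓞 K) → ℂ := fun x => if Cp P x.1.1 then
    ((W (nm x.1.1 / Q) * nm x.1.1 : ℝ) : ℂ) * (kap (k * x.1.1) x.2.1 x.2.2 : ℂ) else 0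
  let T : Finset (NI K × Ideal (𝓞 K) × Ideal (𝓞 K)) := (fin_NI (K := K) Q).toFinset ×ˢ
    (FS K (6 * y * Z) ×ˢ FS K (6 * y * Z))
  have key : ∀ c c' : Ideal (𝓞 K) → ℂ, (∀ n, c n ≠ 0 → nm n ≤ 6 * y * Z) →
      (∀ n, c' n ≠ 0 → nm n ≤ 6 * y * Z) →
      (sumZ P fun q => ((W (nm q / Q) * nm q : ℝ) : ℂ) * QQ2 (k * q) c c') =
        ∑ x ∈ T, w x * c x.2.1 * c' x.2.2 := by
    intro c c' hc hc'
    rw [sumZ_eq P Q _ fun I hI => by rw [hWz I hI]; simp]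
    rw [Finset.sum_product]
    refine Finset.sum_congr rfl fun I _ => ?_
    by_cases hC : Cp P I.1
    · rw [if_pos hC, QQ2_eq _ (6 * y * Z) c c' hc hc', Finset.mul_sum]
      refine Finset.sum_congr rfl fun p _ => ?_
      simp only [w, if_pos hC]
      ring
    · rw [if_neg hC]
      symm
      refine Finset.sum_eq_zero fun p _ => ?_
      simp only [w, if_neg hC, zero_mul]
  refine ⟨fun φ ψ => ∑ x ∈ T, w x * fc P y Z G N m R L t x.2.1 φ *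
    (starRingEnd ℂ) (fc P y Z G N m R L t x.2.2 ψ), ?_, ?_, ?_⟩
  · exact cont_bil T w (fun x => x.2.1) (fun x => x.2.2) (fc P y Z G N m R L t) hfc
  · intro φ ψ
    have e1 : ∀ n : Ideal (𝓞 K), (starRingEnd ℂ) (fc P y Z G N m R L t n ψ) =
        kn N m (R / 2 * cexp (-(ψ * I))) *
          cfs P y Z G (se (be R L ψ) (-t)) (se 0 (-t)) n := by
      intro n
      rw [fc, map_mul, conj_kn, h4 K P y Z G _ _ n hZ, conj_se, conj_se, conj_al, map_zero]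
    rw [SMs, key _ _ (fun n hn => ((h3 K P y Z G _ _ hG hy hZ (hN φ)).2.1 n hn).2.2)
      (fun n hn => ((h3 K P y Z G _ _ hG hy hZ (hN' ψ)).2.1 n hn).2.2), Finset.sum_mul]
    refine Finset.sum_congr rfl fun x _ => ?_
    rw [e1, fc]
    ring
  · rw [key _ _ (fun n hn => (hmi n hn).2.2) (fun n hn => (hmi n fun h0 => hn (by
      rw [h0, map_zero])).2.2)]
    exact bil T w (fun x => x.2.1) (fun x => x.2.2) (fc P y Z G N m R L t) hfc

/-! ### The upper bound by positivity -/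

theorem upper [IQ K] (h2 : T_PSS) (h3 : T_BQS) (h4 : T_CNJ) (h7 : Pool.Agent.H65.CRG.T_DB)
    {P y Z Q : ℝ} {W G : ℝ → ℝ} (hQ : 0 < Q) (hW : IsW W) (hW0 : W (1 / Q) = 0)
    (hG : IsG G) (hy : 1 ≤ y) (hZ : 0 < Z) (N : ℕ) (m : ℕ → ℝ) {R L θ : ℝ} (t : ℝ) (hR : 0 < R)
    (hθ : 0 < θ) (hpm : 0 < 1 + pm N m (1 / 2)) (hN : ∀ φ, Nr (se (al R L φ) t))
    (hN' : ∀ ψ, Nr (se (be R L ψ) (-t))) (k : Ideal (𝓞 K)) (hk : Sm' P k) {κ : ℝ}
    (hκ : ∀ φ : ℝ, ‖kn N m (R / 2 * cexp (φ * I))‖ ≤ κ) {ε : ℝ}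
    (hS : ∀ S ∈ (pf k).powerset, ∀ φ ψ : ℝ,
      ‖SMs P y Z Q W G (qu k S) (al R L φ) (be R L ψ) t -
        ((rk K P * W1 W * Q ^ 2 : ℝ) : ℂ) * b0 (-R + R / 2 * cexp (φ * I))
          (-R + R / 2 * cexp (-(ψ * I))) θ‖ ≤ ε * Q ^ 2) :
    FW P Q W k (fun χ => ‖∑ᶠ n : Ideal (𝓞 K), mi (fc P y Z G N m R L t n) * χ.ψ n‖ ^ 2) ≤
      cQ N m R θ * A0 P Q W k +
        hc K / wu K * (∑ S ∈ (pf k).powerset, |ph (qu k S)|) * (κ ^ 2 * (ε * Q ^ 2)) := by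
  have hmi := fun n => mi_fc (K := K) h3 (P := P) hG hy hZ N m t hN n
  have hfin : (Function.support fun n : Ideal (𝓞 K) => mi (fc P y Z G N m R L t n)).Finite :=
    (fin_le (6 * y * Z)).subset fun n hn => (hmi n hn).2.2
  have hκ0 : 0 ≤ κ := (norm_nonneg _).trans (hκ 0)
  have hκ' : ∀ ψ : ℝ, ‖kn N m (R / 2 * cexp (-(ψ * I)))‖ ≤ κ := by
    intro ψ
    rw [← conj_kn, RCLike.norm_conj]
    exact hκ ψ
  refine (h2 K P Q W k _ hQ hW hW0 hk hfin fun n hn => ⟨(hmi n hn).1, (hmi n hn).2.1⟩).trans ?_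
  obtain ⟨hcb, hint⟩ := h7 N m R θ hpm hR hθ
  have e3 : Continuous (fun φ : ℝ => kn N m (R / 2 * cexp (φ * I))) := cont_kn N m hR
  have e4 : Continuous (fun ψ : ℝ => kn N m (R / 2 * cexp (-(ψ * I)))) := by
    refine (Complex.continuous_conj.comp e3).congr fun ψ => ?_
    exact conj_kn N m R ψ
  obtain ⟨n₀, hn₀⟩ : ∃ n₀ : ℝ, n₀ = rk K P * W1 W * Q ^ 2 := ⟨_, rfl⟩
  rw [← hn₀] at hS
  have e2 : Continuous (Function.uncurry fun φ ψ : ℝ => (n₀ : ℂ) * (b0 (-R + R / 2 * cexp (φ * I))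
      (-R + R / 2 * cexp (-(ψ * I))) θ * (kn N m (R / 2 * cexp (φ * I)) *
        kn N m (R / 2 * cexp (-(ψ * I)))))) :=
    continuous_const.mul (hcb.mul ((e3.comp continuous_fst).mul (e4.comp continuous_snd)))
  have e9 : 1 / (2 * Real.pi : ℂ) ^ 2 * ∫ φ in (0 : ℝ)..(2 * Real.pi),
      ∫ ψ in (0 : ℝ)..(2 * Real.pi), (n₀ : ℂ) * (b0 (-R + R / 2 * cexp (φ * I))
      (-R + R / 2 * cexp (-(ψ * I))) θ * (kn N m (R / 2 * cexp (φ * I)) *
        kn N m (R / 2 * cexp (-(ψ * I))))) = ((n₀ * cQ N m R θ : ℝ) : ℂ) := by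
    simp only [intervalIntegral.integral_const_mul]
    rw [mul_left_comm, hint]
    push_cast
    rfl
  have hX : ∀ S ∈ (pf k).powerset, |(sumZ P fun q => ((W (nm q / Q) * nm q : ℝ) : ℂ) *
      QQ2 (qu k S * q) (fun n => mi (fc P y Z G N m R L t n))
        (fun n => (starRingEnd ℂ) (mi (fc P y Z G N m R L t n)))).re - n₀ * cQ N m R θ| ≤
      κ ^ 2 * (ε * Q ^ 2) := by
    intro S hSm
    obtain ⟨F, hF, hF1, hF2⟩ := form (K := K) h3 h4 (P := P) (Q := Q) (W := W) hQ hW hG hy hZ N m t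
      hR hN hN' (qu k S)
    rw [hF2]
    have e5 := dbl_approx F (fun φ ψ => (n₀ : ℂ) * (b0 (-R + R / 2 * cexp (φ * I))
      (-R + R / 2 * cexp (-(ψ * I))) θ * (kn N m (R / 2 * cexp (φ * I)) *
        kn N m (R / 2 * cexp (-(ψ * I)))))) hF e2 (b := κ ^ 2 * (ε * Q ^ 2)) (by
        intro φ ψ
        have e8 : F φ ψ - (n₀ : ℂ) * (b0 (-R + R / 2 * cexp (φ * I))
              (-R + R / 2 * cexp (-(ψ * I))) θ * (kn N m (R / 2 * cexp (φ * I)) *
              kn N m (R / 2 * cexp (-(ψ * I))))) =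
            (SMs P y Z Q W G (qu k S) (al R L φ) (be R L ψ) t - n₀ * b0 (-R + R / 2 * cexp (φ * I))
              (-R + R / 2 * cexp (-(ψ * I))) θ) * (kn N m (R / 2 * cexp (φ * I)) *
              kn N m (R / 2 * cexp (-(ψ * I)))) := by
          rw [hF1]
          ring
        rw [e8, norm_mul, norm_mul]
        have f1 : ‖kn N m (R / 2 * cexp (φ * I))‖ * ‖kn N m (R / 2 * cexp (-(ψ * I)))‖ ≤
            κ ^ 2 := by
          rw [sq]
          exact mul_le_mul (hκ φ) (hκ' ψ) (norm_nonneg _) hκ0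
        have f2 := hS S hSm φ ψ
        rw [mul_comm (κ ^ 2)]
        exact mul_le_mul f2 f1 (by positivity) ((norm_nonneg _).trans f2))
    rw [e9] at e5
    refine le_trans ?_ e5
    refine le_trans (le_of_eq ?_) (Complex.abs_re_le_norm _)
    rw [Complex.sub_re, Complex.ofReal_re]
  obtain ⟨X, hXe⟩ : ∃ X : Finset (PrI K) → ℝ, ∀ S, X S =
    (sumZ P fun q => ((W (nm q / Q) * nm q : ℝ) : ℂ) *
      QQ2 (qu k S * q) (fun n => mi (fc P y Z G N m R L t n))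
        (fun n => (starRingEnd ℂ) (mi (fc P y Z G N m R L t n)))).re := ⟨_, fun _ => rfl⟩
  simp only [← hXe] at hX ⊢
  have hHn : 0 ≤ hc K / wu K := by
    unfold hc wu
    positivity
  have hsum : ∑ S ∈ (pf k).powerset, (-1 : ℝ) ^ S.card * ph (qu k S) * X S ≤
      phs k * (n₀ * cQ N m R θ) +
        (∑ S ∈ (pf k).powerset, |ph (qu k S)|) * (κ ^ 2 * (ε * Q ^ 2)) := by
    rw [phs, Finset.sum_mul, Finset.sum_mul, ← Finset.sum_add_distrib]
    refine Finset.sum_le_sum fun S hSm => ?_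
    have h7 := hX S hSm
    have h8 : (-1 : ℝ) ^ S.card * ph (qu k S) * (X S - n₀ * cQ N m R θ) ≤
        |ph (qu k S)| * (κ ^ 2 * (ε * Q ^ 2)) := by
      refine (le_abs_self _).trans ?_
      rw [abs_mul, abs_mul, abs_pow, abs_neg, abs_one, one_pow, one_mul]
      exact mul_le_mul_of_nonneg_left h7 (abs_nonneg _)
    linarith
  refine (mul_le_mul_of_nonneg_left hsum hHn).trans (le_of_eq ?_)
  rw [hn₀]
  unfold A0
  ring

/-! ### Comparison of the mean squares -/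

theorem sq_split {a b η : ℝ} (hη : 0 < η) :
    (a + b) ^ 2 ≤ (1 + η) * a ^ 2 + (1 + 1 / η) * b ^ 2 := by
  have a3 : 0 ≤ (η * a - b) ^ 2 / η := by positivity
  have a4 : (1 + η) * a ^ 2 + (1 + 1 / η) * b ^ 2 - (a + b) ^ 2 = (η * a - b) ^ 2 / η := by
    field_simp
    ring
  linarith

open scoped Classical in
theorem FW_split [IQ K] (hNRM : T_NRM) (hIEX : T_IEX) {P Q : ℝ} {W : ℝ → ℝ} (hQ : 0 < Q)
    (hW : IsW W) (hW0 : W (1 / Q) = 0) {k : Ideal (𝓞 K)} (hk0 : k ≠ ⊥) (X D : RCC K → ℂ)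
    {E η M C' : ℝ} (hη : 0 < η) (hM0 : 0 ≤ M)
    (hXD : ∀ χ : RCC K, χ.f ≠ ⊤ → nm χ.f ≤ nm k * Q → ‖X χ - D χ‖ ≤ E)
    (hM : ∀ q : Ideal (𝓞 K), q ≠ ⊥ → nm q ≤ Q → k * q ≠ ⊤ →
      ((Pr K (k * q)).ncard : ℝ) ≤ M)
    (hC' : ({I : Ideal (𝓞 K) | I ≠ ⊥ ∧ Cp P I ∧ nm I ≤ Q}.ncard : ℝ) ≤ C') :
    FW P Q W k (fun χ => ‖X χ‖ ^ 2) ≤ (1 + η) * FW P Q W k (fun χ => ‖D χ‖ ^ 2) +
      (1 + 1 / η) * (C' * (M * E ^ 2)) := by
  have : IsTotallyComplex K := (hNRM K).1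
  have hWz : ∀ I : Ideal (𝓞 K), Q ≤ nm I → W (nm I / Q) = 0 := by
    intro I hI
    refine hW.high _ ?_
    rw [le_div_iff₀ hQ, one_mul]
    exact hI
  have hη' : 0 ≤ 1 + 1 / η := by positivity
  unfold FW
  rw [sumC_eq P Q _ fun I hI => by rw [hWz I hI, zero_mul],
    sumC_eq P Q _ fun I hI => by rw [hWz I hI, zero_mul], Finset.mul_sum]
  have hterm : ∀ I ∈ (fin_NI (K := K) Q).toFinset,
      (if Cp P I.1 then W (nm I.1 / Q) * ∑ᶠ χ ∈ Pr K (k * I.1), ‖X χ‖ ^ 2 else 0) ≤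
      (1 + η) * (if Cp P I.1 then W (nm I.1 / Q) * ∑ᶠ χ ∈ Pr K (k * I.1), ‖D χ‖ ^ 2 else 0) +
      (if Cp P I.1 then (1 + 1 / η) * (M * E ^ 2) else 0) := by
    intro I hI
    rw [Set.Finite.mem_toFinset] at hI
    have hI' : nm I.1 < Q := hI
    by_cases hC : Cp P I.1
    · simp only [if_pos hC]
      by_cases hWI : W (nm I.1 / Q) = 0
      · rw [hWI, zero_mul, zero_mul, mul_zero, zero_add]
        positivity
      · have hne : k * I.1 ≠ ⊤ := by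
          intro htop
          have hI1 : I.1 = ⊤ := by
            rw [eq_top_iff, ← htop]
            exact Ideal.mul_le_right
          apply hWI
          have hn1 : nm I.1 = 1 := by
            rw [hI1]
            unfold nm
            rw [Ideal.absNorm_top]
            norm_num
          rw [hn1]
          exact hW0
        have hkI : k * I.1 ≠ ⊥ := mul_ne_zero hk0 I.2
        have hfin : (Pr K (k * I.1)).Finite := (hIEX K (k * I.1) hkI).1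
        have hcard : (hfin.toFinset.card : ℝ) ≤ M := by
          rw [← Set.ncard_eq_toFinset_card _ hfin]
          exact hM I.1 I.2 hI'.le hne
        rw [finsum_mem_eq_finite_toFinset_sum _ hfin, finsum_mem_eq_finite_toFinset_sum _ hfin]
        have hW01 := hW.bd (nm I.1 / Q)
        have hsum : ∑ χ ∈ hfin.toFinset, ‖X χ‖ ^ 2 ≤ (1 + η) * ∑ χ ∈ hfin.toFinset, ‖D χ‖ ^ 2 +
            (1 + 1 / η) * (M * E ^ 2) := by
          have h1 : ∀ χ ∈ hfin.toFinset, ‖X χ‖ ^ 2 ≤ (1 + η) * ‖D χ‖ ^ 2 +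
              (1 + 1 / η) * E ^ 2 := by
            intro χ hχ
            have hχf : χ.f = k * I.1 := by simpa [Pr] using hχ
            have h2 := hXD χ (by rw [hχf]; exact hne) (by
              rw [hχf, nmm]
              exact mul_le_mul_of_nonneg_left hI'.le (by linarith [nm_ge hk0]))
            have h3 : ‖X χ‖ ≤ ‖D χ‖ + ‖X χ - D χ‖ := by
              have h4 := norm_add_le (D χ) (X χ - D χ)
              rwa [add_sub_cancel] at h4
            calc ‖X χ‖ ^ 2 ≤ (‖D χ‖ + ‖X χ - D χ‖) ^ 2 :=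
                  pow_le_pow_left₀ (norm_nonneg _) h3 2
              _ ≤ (1 + η) * ‖D χ‖ ^ 2 + (1 + 1 / η) * ‖X χ - D χ‖ ^ 2 := sq_split hη
              _ ≤ _ := by
                  have h5 := mul_le_mul_of_nonneg_left
                    (pow_le_pow_left₀ (norm_nonneg _) h2 2) hη'
                  linarith
          refine (Finset.sum_le_sum h1).trans ?_
          rw [Finset.sum_add_distrib, ← Finset.mul_sum, Finset.sum_const, nsmul_eq_mul]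
          have h6 : (hfin.toFinset.card : ℝ) * ((1 + 1 / η) * E ^ 2) ≤
              (1 + 1 / η) * (M * E ^ 2) := by
            calc (hfin.toFinset.card : ℝ) * ((1 + 1 / η) * E ^ 2) ≤ M * ((1 + 1 / η) * E ^ 2) :=
                  mul_le_mul_of_nonneg_right hcard (by positivity)
              _ = _ := by ring
          linarith
        have h7 : 0 ≤ (1 + 1 / η) * (M * E ^ 2) := by positivity
        calc W (nm I.1 / Q) * ∑ χ ∈ hfin.toFinset, ‖X χ‖ ^ 2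
            ≤ W (nm I.1 / Q) * ((1 + η) * ∑ χ ∈ hfin.toFinset, ‖D χ‖ ^ 2 +
              (1 + 1 / η) * (M * E ^ 2)) := mul_le_mul_of_nonneg_left hsum hW01.1
          _ = (1 + η) * (W (nm I.1 / Q) * ∑ χ ∈ hfin.toFinset, ‖D χ‖ ^ 2) +
              W (nm I.1 / Q) * ((1 + 1 / η) * (M * E ^ 2)) := by ring
          _ ≤ _ := by
              have h8 := mul_le_mul_of_nonneg_right hW01.2 h7
              linarith
    · simp only [if_neg hC]
      simp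
  refine (Finset.sum_le_sum hterm).trans ?_
  rw [Finset.sum_add_distrib]
  refine add_le_add le_rfl ?_
  rw [← Finset.sum_filter, Finset.sum_const, nsmul_eq_mul]
  have hcnt : ((((fin_NI (K := K) Q).toFinset.filter fun I => Cp P I.1).card : ℕ) : ℝ) ≤ C' := by
    refine le_trans ?_ hC'
    rw [Nat.cast_le]
    have hf : {I : Ideal (𝓞 K) | I ≠ ⊥ ∧ Cp P I ∧ nm I ≤ Q}.Finite :=
      (fin_le Q).subset fun I hI => hI.2.2
    rw [Set.ncard_eq_toFinset_card _ hf]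
    refine Finset.card_le_card_of_injOn (fun I => I.1) ?_ (Subtype.val_injective.injOn)
    intro I hI
    rw [Finset.mem_coe, Finset.mem_filter, Set.Finite.mem_toFinset] at hI
    rw [Finset.mem_coe, Set.Finite.mem_toFinset]
    have h9 : nm I.1 < Q := hI.1
    exact ⟨I.2, hI.2, h9.le⟩
  calc _ ≤ C' * ((1 + 1 / η) * (M * E ^ 2)) := mul_le_mul_of_nonneg_right hcnt (by positivity)
    _ = _ := by ring

/-! ### The theorem -/

theorem cQ_nn (N : ℕ) (m : ℕ → ℝ) (R : ℝ) {x : ℝ} (hx : 0 < x) : 0 ≤ cQ N m R x := by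
  unfold cQ
  have h1 : 0 ≤ ∫ v in (0 : ℝ)..1, gQ N m R v ^ 2 :=
    intervalIntegral.integral_nonneg zero_le_one fun v _ => sq_nonneg _
  have h2 : 0 ≤ ∫ v in (0 : ℝ)..1, deriv (gQ N m R) v ^ 2 :=
    intervalIntegral.integral_nonneg zero_le_one fun v _ => sq_nonneg _
  positivity

theorem ph_le {I : Ideal (𝓞 K)} : ph I ≤ nm I := by
  unfold ph
  have h1 : ∏ p ∈ pf I, (1 - 1 / np p) ≤ 1 := by
    refine Finset.prod_le_one (fun p _ => ?_) fun p _ => ?_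
    · have h3 := np_ge p
      have h4 : 1 / np p ≤ 1 := by
        rw [div_le_one (by linarith)]
        exact h3
      linarith
    · have h3 := np_ge p
      have : 0 ≤ 1 / np p := by positivity
      linarith
  have h0 : 0 ≤ nm I := by
    unfold nm
    positivity
  calc nm I * ∏ p ∈ pf I, (1 - 1 / np p) ≤ nm I * 1 := mul_le_mul_of_nonneg_left h1 h0
    _ = nm I := mul_one _

theorem rk_nn (P : ℝ) : 0 ≤ rk K P := by
  unfold rk rh hc wu sd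
  refine mul_nonneg ?_ (Finset.prod_nonneg fun p _ => ?_)
  · positivity
  · have h3 := np_ge p
    have h4 : 1 / np p ≤ 1 := by
      rw [div_le_one (by linarith)]
      exact h3
    linarith

theorem norm_XD {P y Z : ℝ} {G : ℝ → ℝ} [IQ K] (h3 : T_BQS) (hG : IsG G) (hy : 1 ≤ y)
    (hZ : 0 < Z) (N : ℕ) (m : ℕ → ℝ) {R Q : ℝ} (t : ℝ) (hR : 0 < R)
    (hN : ∀ φ, Nr (se (al R (Real.log Q) φ) t)) (χ : RCC K) {κ E : ℝ}
    (hκ : ∀ φ : ℝ, ‖kn N m (R / 2 * cexp (φ * I))‖ ≤ κ)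
    (hE : ∀ φ : ℝ, ‖(∑ᶠ n : Ideal (𝓞 K), cfs P y Z G (se (al R (Real.log Q) φ) t) (se 0 t) n *
      χ.ψ n) - ZP P χ (se (al R (Real.log Q) φ) t) * mlz P y χ.ψ (se 0 t)‖ ≤ E) :
    ‖(1 / (2 * Real.pi : ℂ) * ∫ φ in (0 : ℝ)..(2 * Real.pi),
      ZP P χ (sgm R Q + t * I + R / 2 * cexp (φ * I) / Real.log Q) *
        kn N m (R / 2 * cexp (φ * I))) * mlz P y χ.ψ (1 / 2 + t * I) -
      ∑ᶠ n : Ideal (𝓞 K), mi (fc P y Z G N m R (Real.log Q) t n) * χ.ψ n‖ ≤ κ * E := by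
  have hκ0 : 0 ≤ κ := (norm_nonneg _).trans (hκ 0)
  have hmi := fun n => mi_fc (K := K) h3 (P := P) hG hy hZ N m t hN n
  have hfc := cont_fc (K := K) P y Z G N m t hR hN
  have e0 : (1 / 2 + t * I : ℂ) = se 0 t := by
    unfold se
    ring
  have e1 : (1 / (2 * Real.pi : ℂ) * ∫ φ in (0 : ℝ)..(2 * Real.pi),
      ZP P χ (sgm R Q + t * I + R / 2 * cexp (φ * I) / Real.log Q) *
        kn N m (R / 2 * cexp (φ * I))) * mlz P y χ.ψ (1 / 2 + t * I) =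
      mi fun φ => ZP P χ (se (al R (Real.log Q) φ) t) * kn N m (R / 2 * cexp (φ * I)) *
        mlz P y χ.ψ (se 0 t) := by
    rw [mi_mul_const, e0]
    unfold mi
    simp only [se_sgm]
  have e2 : ∑ᶠ n : Ideal (𝓞 K), mi (fc P y Z G N m R (Real.log Q) t n) * χ.ψ n =
      mi fun φ => kn N m (R / 2 * cexp (φ * I)) * ∑ᶠ n : Ideal (𝓞 K),
        cfs P y Z G (se (al R (Real.log Q) φ) t) (se 0 t) n * χ.ψ n := by
    rw [fs_sum (6 * y * Z) _ _ fun n hn => (hmi n hn).2.2]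
    have e3 : ∀ φ : ℝ, kn N m (R / 2 * cexp (φ * I)) * ∑ᶠ n : Ideal (𝓞 K),
        cfs P y Z G (se (al R (Real.log Q) φ) t) (se 0 t) n * χ.ψ n =
        ∑ n ∈ FS K (6 * y * Z), fc P y Z G N m R (Real.log Q) t n φ * χ.ψ n := by
      intro φ
      rw [fs_sum (6 * y * Z) _ _ fun n hn => ((h3 K P y Z G _ _ hG hy hZ (hN φ)).2.1 n hn).2.2,
        Finset.mul_sum]
      refine Finset.sum_congr rfl fun n _ => ?_
      rw [fc]
      ring
    simp only [e3]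
    rw [mi_sum _ (fun n φ => fc P y Z G N m R (Real.log Q) t n φ * χ.ψ n) fun n =>
      (hfc n).mul continuous_const]
    refine Finset.sum_congr rfl fun n _ => ?_
    rw [mi_mul_const]
  have c1 : Continuous fun φ : ℝ => ZP P χ (se (al R (Real.log Q) φ) t) *
      kn N m (R / 2 * cexp (φ * I)) * mlz P y χ.ψ (se 0 t) :=
    ((cont_ZP P χ (cont_se R _ t)).mul (cont_kn N m hR)).mul continuous_const
  have c2 : Continuous fun φ : ℝ => kn N m (R / 2 * cexp (φ * I)) * ∑ᶠ n : Ideal (𝓞 K),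
      cfs P y Z G (se (al R (Real.log Q) φ) t) (se 0 t) n * χ.ψ n := by
    refine (cont_kn N m hR).mul ?_
    have e4 : ∀ φ : ℝ, ∑ᶠ n : Ideal (𝓞 K),
        cfs P y Z G (se (al R (Real.log Q) φ) t) (se 0 t) n * χ.ψ n =
        ∑ n ∈ FS K (6 * y * Z), cfs P y Z G (se (al R (Real.log Q) φ) t) (se 0 t) n * χ.ψ n :=
      fun φ => fs_sum (6 * y * Z) _ _ fun n hn =>
        ((h3 K P y Z G _ _ hG hy hZ (hN φ)).2.1 n hn).2.2
    simp only [e4]
    refine continuous_finsetSum _ fun n _ => ?_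
    exact (cont_cfs P y Z G _ n (cont_se R _ t) fun φ => Nr_lt (hN φ)).mul continuous_const
  rw [e1, e2, ← mi_sub _ _ c1 c2]
  refine norm_mi_le _ fun φ => ?_
  have e5 : ZP P χ (se (al R (Real.log Q) φ) t) * kn N m (R / 2 * cexp (φ * I)) *
      mlz P y χ.ψ (se 0 t) - kn N m (R / 2 * cexp (φ * I)) * ∑ᶠ n : Ideal (𝓞 K),
      cfs P y Z G (se (al R (Real.log Q) φ) t) (se 0 t) n * χ.ψ n =
      kn N m (R / 2 * cexp (φ * I)) * -((∑ᶠ n : Ideal (𝓞 K),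
        cfs P y Z G (se (al R (Real.log Q) φ) t) (se 0 t) n * χ.ψ n) -
        ZP P χ (se (al R (Real.log Q) φ) t) * mlz P y χ.ψ (se 0 t)) := by ring
  rw [e5, norm_mul, norm_neg]
  exact mul_le_mul (hκ φ) (hE φ) (norm_nonneg _) hκ0

theorem pf_LEC (h1 : Pool.Agent.H33.HC.T_SH) (h2 : T_PSS) (h3 : T_BQS) (h4 : T_CNJ) (h5 : T_MVC)
    (h6 : Pool.Agent.H65.CRZ.T_BB) (h7 : Pool.Agent.H65.CRG.T_DB)
    (h8 : Pool.Agent.H33.HH.T_GEX) (_h9 : T_MSC) (h10 : Pool.Agent.H33.HH.T_PHM)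
    (h11 : Pool.Agent.H33.HH.T_NPR) (_h12 : T_GSC) (h13 : Pool.Agent.H33.HH.T_NRM)
    (h14 : Pool.Agent.H33.HH.T_IEX) (h15 : Pool.Agent.H33.HH.T_CNT) : T_LEC := by
  intro K _ _ _ P W k θ e R δ T N m hSP hW hW1 hk hPar hR hδ hT hpm
  obtain ⟨G, hG⟩ := h8
  have hθ := hPar.θpos
  have hθ1 : θ ≤ 1 := by
    have := hPar.le
    have := hPar.epos
    linarith
  have hk1 := nm_ge hk.1
  obtain ⟨κ, hκ0, hκ⟩ := norm_kn N m hR
  obtain ⟨C₁, -, hBB⟩ := h6 R θ hR hθ hθ1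
  have hquo : ∀ S ∈ (pf k).powerset, Sm' P (qu k S) := by
    intro S hS
    obtain ⟨-, hq2, -⟩ := Pool.Agent.H37.HH.pf_QUO K k hk.1
    obtain ⟨-, -, hq3, hq4, -⟩ := hq2 S (Finset.mem_powerset.1 hS)
    exact ⟨hq3, fun p hp => hk.2 p (hq4 p hp)⟩
  have hSH : ∀ S ∈ (pf k).powerset, ∃ B : ℝ, 0 ≤ B ∧ ∀ η : ℝ, 0 < η → ∃ Q₀ : ℝ, 2 ≤ Q₀ ∧
      ∀ Q : ℝ, Q₀ ≤ Q → ∀ (α β : ℂ) (u : ℝ), Ad (2 * R) Q α β → R / Real.log Q ≤ ‖α + β‖ →
      ‖SMs P (Q ^ θ) (Q ^ (1 + e)) Q W G (qu k S) α β u -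
        ((rk K P * W1 W * Q ^ 2 : ℝ) : ℂ) * Bm α β (Real.log Q) (θ * Real.log Q)‖ ≤
        η * (1 + |u|) ^ B * Q ^ 2 := fun S hS =>
    h1 K P W G (qu k S) θ e R (2 * R) hSP hW hW1 hG (hquo S hS) hPar hR (by positivity)
  choose! B hB hSH' using hSH
  obtain ⟨Bm', hBm'⟩ : ∃ Bm' : ℝ, Bm' = ∑ S ∈ (pf k).powerset, |B S| := ⟨_, rfl⟩
  have hBle : ∀ S ∈ (pf k).powerset, B S ≤ Bm' := by
    intro S hS
    refine (le_abs_self _).trans ?_
    rw [hBm']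
    exact Finset.single_le_sum (f := fun S => |B S|) (fun S _ => abs_nonneg _) hS
  obtain ⟨H, hH⟩ : ∃ H : ℝ, H = hc K / wu K := ⟨_, rfl⟩
  have hH0 : 0 ≤ H := by
    rw [hH]
    unfold hc wu
    positivity
  obtain ⟨Sp0, hSp0⟩ : ∃ Sp0 : ℝ, Sp0 = ∑ S ∈ (pf k).powerset, |ph (qu k S)| := ⟨_, rfl⟩
  have hSp00 : 0 ≤ Sp0 := by
    rw [hSp0]
    exact Finset.sum_nonneg fun S _ => abs_nonneg _
  obtain ⟨ε, hε⟩ : ∃ ε : ℝ, ε = δ / (4 * (H * Sp0 * κ ^ 2 + 1)) := ⟨_, rfl⟩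
  have hden : 0 < H * Sp0 * κ ^ 2 + 1 := by positivity
  have hε0 : 0 < ε := by
    rw [hε]
    positivity
  have hε1 : H * Sp0 * κ ^ 2 * ε ≤ δ / 4 := by
    have h9 : (H * Sp0 * κ ^ 2 + 1) * ε = δ / 4 := by
      rw [hε]
      field_simp
    linarith
  have hTB : 0 < (1 + T) ^ Bm' := Real.rpow_pos_of_pos (by linarith) _
  have hSH2 : ∀ S ∈ (pf k).powerset, ∃ Q₀ : ℝ, ∀ Q : ℝ, Q₀ ≤ Q → ∀ (α β : ℂ) (u : ℝ),
      Ad (2 * R) Q α β → R / Real.log Q ≤ ‖α + β‖ → |u| ≤ T →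
      ‖SMs P (Q ^ θ) (Q ^ (1 + e)) Q W G (qu k S) α β u -
        ((rk K P * W1 W * Q ^ 2 : ℝ) : ℂ) * Bm α β (Real.log Q) (θ * Real.log Q)‖ ≤
        ε * Q ^ 2 := by
    intro S hS
    obtain ⟨Q₀, -, hQ₀⟩ := hSH' S hS (ε / (1 + T) ^ Bm') (by positivity)
    refine ⟨Q₀, fun Q hQ α β u hAd hab hu => (hQ₀ Q hQ α β u hAd hab).trans ?_⟩
    refine mul_le_mul_of_nonneg_right ?_ (sq_nonneg _)
    have g1 : (1 + |u|) ^ (B S) ≤ (1 + T) ^ Bm' :=
      (Real.rpow_le_rpow (by positivity) (by linarith) (hB S hS)).trans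
        (Real.rpow_le_rpow_of_exponent_le (by linarith) (hBle S hS))
    calc ε / (1 + T) ^ Bm' * (1 + |u|) ^ (B S) ≤ ε / (1 + T) ^ Bm' * (1 + T) ^ Bm' :=
          mul_le_mul_of_nonneg_left g1 (by positivity)
      _ = ε := by field_simp
  choose! Q₁ hQ₁ using hSH2
  obtain ⟨Q₃, hQ₃⟩ : ∃ Q₃ : ℝ, Q₃ = ∑ S ∈ (pf k).powerset, |Q₁ S| := ⟨_, rfl⟩
  obtain ⟨CM, BM, Q₂, hCM, hBM, hQ₂1, hQ₂⟩ := h5 K G hG P (nm k) θ e (by linarith) hθ hθ1
    hPar.epos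
  obtain ⟨CN, hCN, hNPR⟩ := h11 K
  obtain ⟨CC, hCC, hCNT⟩ := h15 K P
  obtain ⟨w₀, hw₀, hlow⟩ := hW.low
  -- the constants
  obtain ⟨A', hA'⟩ : ∃ A' : ℝ, A' = H * phs k * rk K P * W1 W := ⟨_, rfl⟩
  have hphs : 0 ≤ phs k := ((h10 K).2.2 k hk.1).1
  have hrk : 0 ≤ rk K P := rk_nn P
  have hA'0 : 0 ≤ A' := by
    rw [hA']
    positivity
  have hcQ := cQ_nn N m R hθ
  obtain ⟨η, hη⟩ : ∃ η : ℝ, η = min 1 (δ / (4 * (cQ N m R θ * A' + 1))) := ⟨_, rfl⟩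
  have hden2 : 0 < cQ N m R θ * A' + 1 := by positivity
  have hη0 : 0 < η := by
    rw [hη]
    exact lt_min one_pos (by positivity)
  have hη1 : η ≤ 1 := by
    rw [hη]
    exact min_le_left _ _
  have hη2 : η * (cQ N m R θ * A') ≤ δ / 4 := by
    have h9 : η * (cQ N m R θ * A' + 1) ≤ δ / 4 := by
      have h10 : η ≤ δ / (4 * (cQ N m R θ * A' + 1)) := by
        rw [hη]
        exact min_le_right _ _
      refine (mul_le_mul_of_nonneg_right h10 hden2.le).trans (le_of_eq ?_)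
      field_simp
    linarith
  obtain ⟨E₀, hE₀⟩ : ∃ E₀ : ℝ, E₀ = κ * (CM * (2 + T) ^ BM) := ⟨_, rfl⟩
  obtain ⟨Cf, hCf⟩ : ∃ Cf : ℝ, Cf = (1 + 1 / η) * ((rk K P + CC) * ((CN + H * nm k) * E₀ ^ 2)) :=
    ⟨_, rfl⟩
  refine ⟨max (max 2 Q₂) (max (max Q₃ (2 / w₀)) (max (Real.exp (32 * R + 1)) (4 * Cf / δ))),
    (le_max_left _ _).trans (le_max_left _ _), fun Q hQ t ht => ?_⟩
  have hQa : 2 ≤ Q := ((le_max_left _ _).trans (le_max_left _ _)).trans hQ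
  have hQb : Q₂ ≤ Q := ((le_max_right _ _).trans (le_max_left _ _)).trans hQ
  have hQ' := (le_max_right _ _).trans hQ
  have hQc : Q₃ ≤ Q := ((le_max_left _ _).trans (le_max_left _ _)).trans hQ'
  have hQd : 2 / w₀ ≤ Q := ((le_max_right _ _).trans (le_max_left _ _)).trans hQ'
  have hQe : Real.exp (32 * R + 1) ≤ Q := ((le_max_left _ _).trans (le_max_right _ _)).trans hQ'
  have hQf : 4 * Cf / δ ≤ Q := ((le_max_right _ _).trans (le_max_right _ _)).trans hQ'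
  have hQ0 : 0 < Q := by linarith
  have hQ1 : 1 ≤ Q := by linarith
  have hQ13 : ∀ S ∈ (pf k).powerset, Q₁ S ≤ Q := by
    intro S hS
    refine (le_abs_self _).trans (le_trans ?_ hQc)
    rw [hQ₃]
    exact Finset.single_le_sum (f := fun S => |Q₁ S|) (fun S _ => abs_nonneg _) hS
  have hL : 32 * R + 1 ≤ Real.log Q := (Real.le_log_iff_exp_le hQ0).2 hQe
  have hL0 : 0 < Real.log Q := by linarith
  have hRL : 2 * R / Real.log Q ≤ 1 / 16 := by
    rw [div_le_iff₀ hL0]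
    linarith
  have hy : 1 ≤ Q ^ θ := Real.one_le_rpow hQ1 hθ.le
  have hZ : 0 < Q ^ (1 + e) := Real.rpow_pos_of_pos hQ0 _
  have hW0 : W (1 / Q) = 0 := by
    refine hlow _ ?_
    rw [div_le_iff₀ hQ0]
    rw [div_le_iff₀ hw₀] at hQd
    linarith
  have hN : ∀ φ, Nr (se (al R (Real.log Q) φ) t) := fun φ =>
    Nr_se ((norm_al hR hL0 φ).trans hRL) t
  have hN' : ∀ ψ, Nr (se (be R (Real.log Q) ψ) (-t)) := fun ψ =>
    Nr_se ((norm_be hR hL0 ψ).trans hRL) _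
  have hN0 : Nr (se 0 t) := Nr_se (by rw [norm_zero]; norm_num) t
  -- the second moments
  have hS : ∀ S ∈ (pf k).powerset, ∀ φ ψ : ℝ,
      ‖SMs P (Q ^ θ) (Q ^ (1 + e)) Q W G (qu k S) (al R (Real.log Q) φ)
          (be R (Real.log Q) ψ) t -
        ((rk K P * W1 W * Q ^ 2 : ℝ) : ℂ) * b0 (-R + R / 2 * cexp (φ * I))
          (-R + R / 2 * cexp (-(ψ * I))) θ‖ ≤ ε * Q ^ 2 := by
    intro S hS φ ψ
    have g1 := hQ₁ S hS Q (hQ13 S hS) (al R (Real.log Q) φ) (be R (Real.log Q) ψ) t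
      ⟨norm_al hR hL0 φ, norm_be hR hL0 ψ⟩ (norm_ab hR hL0 φ ψ) ht
    have g2 := (hBB (Real.log Q) (θ * Real.log Q) (-R + R / 2 * cexp (φ * I))
      (-R + R / 2 * cexp (-(ψ * I))) hL0 le_rfl (by
        have := mul_le_mul_of_nonneg_right hθ1 hL0.le
        linarith) (by rw [neg_add_eq_sub, sub_add_cancel, na hR])
      (by rw [neg_add_eq_sub, sub_add_cancel, nb hR])).1
    have g3 : θ * Real.log Q / Real.log Q = θ := by field_simp
    rw [g3] at g2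
    have g4 : Bm (al R (Real.log Q) φ) (be R (Real.log Q) ψ) (Real.log Q) (θ * Real.log Q) =
        b0 (-R + R / 2 * cexp (φ * I)) (-R + R / 2 * cexp (-(ψ * I))) θ := g2
    rw [g4] at g1
    exact g1
  have hup := upper (K := K) h2 h3 h4 h7 hQ0 hW hW0 hG hy hZ N m t hR hθ hpm hN hN' k hk hκ hS
  -- the error
  have hQ10 : Q ^ (-10 : ℝ) ≤ 1 := Real.rpow_le_one_of_one_le_of_nonpos hQ1 (by norm_num)
  have hQ10' : Q ^ (-10 : ℝ) ≤ Q⁻¹ := by
    rw [← Real.rpow_neg_one]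
    exact Real.rpow_le_rpow_of_exponent_le hQ1 (by norm_num)
  have hQ10'' : 0 ≤ Q ^ (-10 : ℝ) := Real.rpow_nonneg hQ0.le _
  have hTM : 0 ≤ CM * (2 + T) ^ BM := mul_nonneg hCM (Real.rpow_nonneg (by linarith) _)
  have hXD : ∀ χ : RCC K, χ.f ≠ ⊤ → nm χ.f ≤ nm k * Q →
      ‖(1 / (2 * Real.pi : ℂ) * ∫ φ in (0 : ℝ)..(2 * Real.pi),
        ZP P χ (sgm R Q + t * I + R / 2 * cexp (φ * I) / Real.log Q) *
          kn N m (R / 2 * cexp (φ * I))) * mlz P (Q ^ θ) χ.ψ (1 / 2 + t * I) -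
        ∑ᶠ n : Ideal (𝓞 K), mi (fc P (Q ^ θ) (Q ^ (1 + e)) G N m R (Real.log Q) t n) *
          χ.ψ n‖ ≤ κ * (CM * (2 + T) ^ BM * Q ^ (-10 : ℝ)) := by
    intro χ hχ1 hχ2
    refine norm_XD (K := K) h3 hG hy hZ N m t hR hN χ hκ fun φ => ?_
    refine (hQ₂ Q hQb χ hχ1 hχ2 _ _ (hN φ) hN0).trans ?_
    refine mul_le_mul_of_nonneg_right (mul_le_mul_of_nonneg_left ?_ hCM) hQ10''
    refine Real.rpow_le_rpow (by positivity) ?_ hBM
    have g5 : (se (al R (Real.log Q) φ) t).im = (al R (Real.log Q) φ).im + t := by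
      unfold se
      simp
    have g6 := (Complex.abs_im_le_norm (al R (Real.log Q) φ)).trans
      ((norm_al hR hL0 φ).trans hRL)
    have g7 := abs_add_le (al R (Real.log Q) φ).im t
    rw [g5]
    linarith
  have hM : ∀ q : Ideal (𝓞 K), q ≠ ⊥ → nm q ≤ Q → k * q ≠ ⊤ →
      ((Pr K (k * q)).ncard : ℝ) ≤ (CN + H * nm k) * Q := by
    intro q hq0 hqQ hkq
    have hkq0 : k * q ≠ ⊥ := mul_ne_zero hk.1 hq0
    have g8 := (abs_le.1 (hNPR (k * q) hkq0 hkq)).2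
    have g9 : phs (k * q) ≤ nm k * Q := by
      refine (((h10 K).2.2 (k * q) hkq0).2.1.trans ph_le).trans ?_
      rw [nmm]
      exact mul_le_mul_of_nonneg_left hqQ (by linarith)
    have g10 := mul_le_mul_of_nonneg_left g9 hH0
    rw [← hH] at g8
    have g11 : CN ≤ CN * Q := le_mul_of_one_le_right hCN hQ1
    have g12 : (CN + H * nm k) * Q = CN * Q + H * (nm k * Q) := by ring
    rw [g12]
    linarith
  have hC' : ({I : Ideal (𝓞 K) | I ≠ ⊥ ∧ Cp P I ∧ nm I ≤ Q}.ncard : ℝ) ≤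
      (rk K P + CC) * Q := by
    have g13 := (abs_le.1 (hCNT Q hQ1)).2
    have g14 : Q ^ (3 / 4 : ℝ) ≤ Q := by
      calc Q ^ (3 / 4 : ℝ) ≤ Q ^ (1 : ℝ) :=
            Real.rpow_le_rpow_of_exponent_le hQ1 (by norm_num)
        _ = Q := Real.rpow_one _
    have g15 := mul_le_mul_of_nonneg_left g14 hCC
    linarith
  have hM0 : 0 ≤ (CN + H * nm k) * Q := by positivity
  have hsp := FW_split (K := K) h13 h14 (P := P) hQ0 hW hW0 hk.1
    (fun χ => (1 / (2 * Real.pi : ℂ) * ∫ φ in (0 : ℝ)..(2 * Real.pi),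
        ZP P χ (sgm R Q + t * I + R / 2 * cexp (φ * I) / Real.log Q) *
          kn N m (R / 2 * cexp (φ * I))) * mlz P (Q ^ θ) χ.ψ (1 / 2 + t * I))
    (fun χ => ∑ᶠ n : Ideal (𝓞 K), mi (fc P (Q ^ θ) (Q ^ (1 + e)) G N m R (Real.log Q) t n) *
          χ.ψ n) hη0 hM0 hXD hM hC'
  refine hsp.trans ?_
  have hA0 : A0 P Q W k = A' * Q ^ 2 := by
    rw [hA', hH]
    rfl
  rw [hA0, ← hH, ← hSp0] at hup
  rw [hA0]
  have j1 : (1 + η) * FW P Q W k (fun χ => ‖∑ᶠ n : Ideal (𝓞 K),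
      mi (fc P (Q ^ θ) (Q ^ (1 + e)) G N m R (Real.log Q) t n) * χ.ψ n‖ ^ 2) ≤
      cQ N m R θ * (A' * Q ^ 2) + 3 * δ / 4 * Q ^ 2 := by
    have j2 : H * Sp0 * (κ ^ 2 * (ε * Q ^ 2)) ≤ δ / 4 * Q ^ 2 := by
      calc H * Sp0 * (κ ^ 2 * (ε * Q ^ 2)) = (H * Sp0 * κ ^ 2 * ε) * Q ^ 2 := by ring
        _ ≤ _ := mul_le_mul_of_nonneg_right hε1 (sq_nonneg _)
    have j3 := mul_le_mul_of_nonneg_left (hup.trans (add_le_add le_rfl j2))
      (by linarith : 0 ≤ 1 + η)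
    refine j3.trans ?_
    have j4 := mul_le_mul_of_nonneg_right hη2 (sq_nonneg Q)
    have j5 : η * (δ / 4 * Q ^ 2) ≤ 1 * (δ / 4 * Q ^ 2) :=
      mul_le_mul_of_nonneg_right hη1 (by positivity)
    have j6 : (1 + η) * (cQ N m R θ * (A' * Q ^ 2) + δ / 4 * Q ^ 2) =
        cQ N m R θ * (A' * Q ^ 2) + η * (cQ N m R θ * A') * Q ^ 2 + δ / 4 * Q ^ 2 +
          η * (δ / 4 * Q ^ 2) := by ring
    rw [j6]
    linarith
  have j7 : (1 + 1 / η) * ((rk K P + CC) * Q * ((CN + H * nm k) * Q *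
      (κ * (CM * (2 + T) ^ BM * Q ^ (-10 : ℝ))) ^ 2)) ≤ δ / 4 * Q ^ 2 := by
    have j8 : (1 + 1 / η) * ((rk K P + CC) * Q * ((CN + H * nm k) * Q *
        (κ * (CM * (2 + T) ^ BM * Q ^ (-10 : ℝ))) ^ 2)) =
        Cf * (Q ^ (-10 : ℝ) * Q ^ (-10 : ℝ)) * Q ^ 2 := by
      rw [hCf, hE₀]
      ring
    rw [j8]
    refine mul_le_mul_of_nonneg_right ?_ (sq_nonneg _)
    have hCf0 : 0 ≤ Cf := by
      rw [hCf]
      positivity
    have j9 : Q ^ (-10 : ℝ) * Q ^ (-10 : ℝ) ≤ Q⁻¹ := by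
      calc Q ^ (-10 : ℝ) * Q ^ (-10 : ℝ) ≤ Q⁻¹ * 1 :=
            mul_le_mul hQ10' hQ10 hQ10'' (by positivity)
        _ = Q⁻¹ := mul_one _
    refine (mul_le_mul_of_nonneg_left j9 hCf0).trans ?_
    rw [← div_eq_mul_inv, div_le_iff₀ hQ0]
    rw [div_le_iff₀ hδ] at hQf
    linarith
  calc _ ≤ (cQ N m R θ * (A' * Q ^ 2) + 3 * δ / 4 * Q ^ 2) + δ / 4 * Q ^ 2 :=
        add_le_add j1 j7
    _ = _ := by ring

end

end Pool.Agent.H86.HC
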